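import Mathlib
import Pool.Agent.H4.URec3

set_option autoImplicit false

namespace Pool.Agent.Results.MP_145b75_an.NotDelta

open Filter Topology
open scoped ENNReal

/-- bounded gaps -/
def Syndetic (A : Set ℕ) : Prop := ∃ L : ℕ, ∀ m : ℕ, ∃ k ∈ A, m ≤ k ∧ k ≤ m + L

/-- `A` meets the set of differences `b - a` (`a < b` in `B`) of every infinite `B` -/
def DeltaStar (A : Set ℕ) : Prop :=
  ∀ B : Set ℕ, B.Infinite → ∃ a ∈ B, ∃ b ∈ B, a < b ∧ b - a ∈ A

def UnifRec {X : Type} [NormedAddCommGroup X] [NormedSpace ℂ X] (T : X →L[ℂ] X) (x : X) : Prop :=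
  ∀ U ∈ 𝓝 x, Syndetic {n | (T ^ n) x ∈ U}

def DeltaRec {X : Type} [NormedAddCommGroup X] [NormedSpace ℂ X] (T : X →L[ℂ] X) (x : X) : Prop :=
  ∀ U ∈ 𝓝 x, DeltaStar {n | (T ^ n) x ∈ U}

open Pool.Agent.H4.URec in
theorem result : ∃ (X : Type) (_ : NormedAddCommGroup X) (_ : NormedSpace ℂ X)
    (_ : CompleteSpace X) (T : X →L[ℂ] X),
    Dense {x | UnifRec T x} ∧ (∀ x, DeltaRec T x → x = 0) ∧ ¬ Dense {x | DeltaRec T x} := by
  haveI := fact30
  haveI hc : CompleteSpace X := (Submodule.isClosed_topologicalClosure _).completeSpace_coe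
  let T : X →L[ℂ] X := T0.restrict X_inv
  have hT : ∀ (k : ℕ) (x : X), (((T ^ k) x : X) : E) = (T0 ^ k) x := by
    intro k
    induction k with
    | zero => intro x; simp
    | succ k ih =>
      intro x
      rw [pow_succ', pow_succ']
      change T0 ((T ^ k) x : X) = T0 ((T0 ^ k) x)
      rw [ih]
  have hE : ∀ x, DeltaRec T x → x = 0 := by
    intro x hx
    refine Subtype.ext (no_ds x (X_le x.2) fun ε hε B hB => ?_)
    obtain ⟨a, ha, b, hb, h1, h2⟩ := hx _ (Metric.ball_mem_nhds x hε) B hB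
    refine ⟨a, ha, b, hb, h1, ?_⟩
    have h3 : (T ^ (b - a)) x ∈ Metric.ball x ε := h2
    rw [Metric.mem_ball, Subtype.dist_eq, dist_eq_norm, hT] at h3
    exact h3
  refine ⟨X, inferInstance, inferInstance, hc, T, ?_, hE, ?_⟩
  · rw [Metric.dense_iff]
    intro x r hr
    have hx : (x : E) ∈ closure (Submodule.span ℂ (Set.range u) : Set E) := x.2
    obtain ⟨y, hy, hd⟩ := Metric.mem_closure_iff.1 hx r hr
    refine ⟨⟨y, Submodule.le_topologicalClosure _ hy⟩, ?_, ?_⟩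
    · rw [Metric.mem_ball, dist_comm]; exact hd
    · intro U hU
      obtain ⟨ε, hε, hb⟩ := Metric.mem_nhds_iff.1 hU
      obtain ⟨L, hL⟩ := span_ret y hy ε hε
      refine ⟨L, fun n => ?_⟩
      obtain ⟨k, h1, h2, _, h4⟩ := hL n
      refine ⟨k, hb ?_, h1, h2⟩
      rw [Metric.mem_ball, Subtype.dist_eq, dist_eq_norm, hT]
      exact h4
  · intro hd
    have hu : u 0 ∈ X := Submodule.le_topologicalClosure _ (Submodule.subset_span ⟨_, rfl⟩)
    have h1 := (hd.mono (s₂ := {0}) fun x hx => hE x hx) ⟨u 0, hu⟩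
    rw [closure_singleton] at h1
    exact u_ne (congrArg Subtype.val h1)

end Pool.Agent.Results.MP_145b75_an.NotDelta
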